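import Mathlib

/-!
Definitions: pp-definability, pp-constructions of K_3, and HerFO.
-/

namespace Pool.Agent.H725.HF

open FirstOrder

/-- Atomic formulas over a relational signature with variables from V. -/
inductive Atom (L : FirstOrder.Language.{0, 0}) (V : Type) : Type
  | eq (x y : V) : Atom L V
  | rel {n : ℕ} (R : L.Relations n) (x : Fin n → V) : Atom L V

/-- Truth of an atomic formula under an assignment. -/
def Atom.Holds {L : FirstOrder.Language.{0, 0}} {V B : Type} [L.Structure B] (v : V → B) :
    Atom L V → Prop
  | .eq x y => v x = v y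
  | .rel R x => FirstOrder.Language.Structure.RelMap R (fun i => v (x i))

/-- The relation S on B with argument places V is primitively positively definable in the
structure B: it is defined by an existentially quantified finite conjunction of atomic formulas. -/
def PPDef (L : FirstOrder.Language.{0, 0}) {V B : Type} [L.Structure B] (S : Set (V → B)) : Prop :=
  ∃ (m : ℕ) (Φ : List (Atom L (V ⊕ Fin m))),
    ∀ v : V → B, v ∈ S ↔ ∃ w : Fin m → B, ∀ a ∈ Φ, a.Holds (Sum.elim v w)

/-- The structure B pp-constructs K_3: for some d ≥ 1 there is a binary relation E on B^d that is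
pp-definable in B (as a relation of arity 2d) such that (B^d; E) is homomorphically equivalent to
K_3 = ({0,1,2}; ≠). -/
def PPConstructsK3 (L : FirstOrder.Language.{0, 0}) (B : Type) [L.Structure B] : Prop :=
  ∃ (d : ℕ) (E : Set (Fin d ⊕ Fin d → B)), 1 ≤ d ∧ PPDef L E ∧
    (∃ f : Fin 3 → (Fin d → B), ∀ i j, i ≠ j → Sum.elim (f i) (f j) ∈ E) ∧
    (∃ g : (Fin d → B) → Fin 3, ∀ x y, Sum.elim x y ∈ E → g x ≠ g y)

/-- CSP(B) is in HerFO: for some first-order sentence φ, a finite nonempty structure A has a
homomorphism to B if and only if every nonempty (induced) substructure of A satisfies φ. -/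
def HerFO (L : FirstOrder.Language.{0, 0}) (B : Type) [L.Structure B] : Prop :=
  ∃ φ : L.Sentence, ∀ (A : Type) [L.Structure A] [Finite A] [Nonempty A],
    Nonempty (A →[L] B) ↔ ∀ S : L.Substructure A, Nonempty S → S ⊨ φ

end Pool.Agent.H725.HF
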