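import Pool.Agent.H725.HF.Inst

/-!
The concrete graphs.
-/

namespace Pool.Agent.H725.HF

open Filter

/-- names of the edges at a site -/
inductive Ed : Type
  | tf | tn | fn | cn | cc | pn | gg | gp | hp | hc | pg | cf | gt | pt
  deriving DecidableEq

instance : Finite Ed := by
  apply Finite.of_surjective (fun i : Fin 14 => (![Ed.tf, Ed.tn, Ed.fn, Ed.cn, Ed.cc, Ed.pn, Ed.gg,
    Ed.gp, Ed.hp, Ed.hc, Ed.pg, Ed.cf, Ed.gt, Ed.pt] : Fin 14 → Ed) i)
  intro e
  cases e
  · exact ⟨0, rfl⟩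
  · exact ⟨1, rfl⟩
  · exact ⟨2, rfl⟩
  · exact ⟨3, rfl⟩
  · exact ⟨4, rfl⟩
  · exact ⟨5, rfl⟩
  · exact ⟨6, rfl⟩
  · exact ⟨7, rfl⟩
  · exact ⟨8, rfl⟩
  · exact ⟨9, rfl⟩
  · exact ⟨10, rfl⟩
  · exact ⟨11, rfl⟩
  · exact ⟨12, rfl⟩
  · exact ⟨13, rfl⟩

/-- local vertices: 0 = chain vertex, 1 = p, 2 = g, 3 = h;
links: 0 = here, 1 = next, 2 = next p -/
def SG : SiteGraph (Fin 3) (Fin 4) Ed where
  src := fun e => match e with
    | .tf => .inl 0
    | .tn => .inl 0
    | .fn => .inl 1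
    | .cn => .inr (0, 0)
    | .cc => .inr (0, 0)
    | .pn => .inr (0, 1)
    | .gg => .inr (0, 2)
    | .gp => .inr (0, 2)
    | .hp => .inr (0, 3)
    | .hc => .inr (0, 3)
    | .pg => .inr (0, 1)
    | .cf => .inr (0, 0)
    | .gt => .inr (0, 2)
    | .pt => .inr (0, 1)
  tgt := fun e => match e with
    | .tf => .inl 1
    | .tn => .inl 2
    | .fn => .inl 2
    | .cn => .inl 2
    | .cc => .inr (1, 0)
    | .pn => .inl 2
    | .gg => .inr (0, 3)
    | .gp => .inr (0, 1)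
    | .hp => .inr (0, 1)
    | .hc => .inr (0, 0)
    | .pg => .inr (2, 2)
    | .cf => .inl 1
    | .gt => .inl 0
    | .pt => .inl 0

/-- the next site of the chain, with the successors of (a,0), (b,0) being (a',1), (b',1) -/
def nx (Lc a b a' b' : ℕ) (x : ℕ × ℕ) : ℕ × ℕ :=
  if x = (a, 0) then (a', 1) else if x = (b, 0) then (b', 1)
  else if x.2 < Lc then (x.1, x.2 + 1) else (x.1 + 1, 0)

/-- the next site of the p-line -/
def pnx (x : ℕ × ℕ) : ℕ × ℕ := if x.2 = 0 then (x.1 + 1, 0) else x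

/-- the links -/
def lks (Lc a b a' b' : ℕ) (k : Fin 3) : ℕ × ℕ → ℕ × ℕ :=
  ![fun x => x, nx Lc a b a' b', pnx] k

/-- the active edges -/
def acts (N Lc : ℕ) (x : ℕ × ℕ) (e : Ed) : Prop :=
  x.1 ≤ N ∧ x.2 ≤ Lc ∧ match e with
    | .tf => True
    | .tn => True
    | .fn => True
    | .cn => True
    | .cc => ¬ (x.1 = N ∧ x.2 = Lc)
    | .pn => x.2 = 0
    | .gg => x.2 = 0
    | .gp => x.2 = 0
    | .hp => x.2 = 0
    | .hc => x.2 = 0
    | .pg => x.2 = 0 ∧ x.1 < N
    | .cf => x.2 = 0 ∧ x.1 = 0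
    | .gt => x.2 = 0 ∧ x.1 = 0
    | .pt => x.2 = 0 ∧ x.1 = N

theorem nx_id (Lc a b : ℕ) (h : 1 ≤ Lc) (x : ℕ × ℕ) :
    nx Lc a b a b x = if x.2 < Lc then (x.1, x.2 + 1) else (x.1 + 1, 0) := by
  obtain ⟨k, j⟩ := x
  unfold nx
  simp only [Prod.mk.injEq]
  split_ifs <;> simp_all

theorem lks_id (Lc a b a' b' : ℕ) (h : 1 ≤ Lc) : lks Lc a b a b = lks Lc a' b' a' b' := by
  funext k x
  fin_cases k
  · rfl
  · show nx Lc a b a b x = nx Lc a' b' a' b' x
    rw [nx_id _ _ _ h, nx_id _ _ _ h]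
  · rfl

theorem third {t f n x : Fin 3} (h1 : t ≠ f) (h2 : t ≠ n) (h3 : f ≠ n) (h4 : x ≠ n) (h5 : x ≠ f) :
    x = t := by
  simp only [ne_eq, Fin.ext_iff] at *
  omega

theorem third' {t f n x : Fin 3} (h1 : t ≠ f) (h2 : t ≠ n) (h3 : f ≠ n) (h4 : x ≠ n) (h5 : x ≠ t) :
    x = f := by
  simp only [ne_eq, Fin.ext_iff] at *
  omega

theorem gadget {t g h p : Fin 3} (h4 : g ≠ t)
    (h5 : h ≠ t) (h6 : g ≠ h) (h7 : g ≠ p) (h8 : h ≠ p) : p = t := by
  simp only [ne_eq, Fin.ext_iff] at *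
  omega

/-- the unswapped graph has no proper colouring -/
theorem unsat (N Lc : ℕ) (hL : Lc % 2 = 1) (c : Fin 3 ⊕ ((ℕ × ℕ) × Fin 4) → Fin 3)
    (hc : ∀ x e, acts N Lc x e →
      c (instV (lks Lc 0 0 0 0) x (SG.src e)) ≠ c (instV (lks Lc 0 0 0 0) x (SG.tgt e))) :
    False := by
  have h1 : c (.inl 0) ≠ c (.inl 1) := hc (0, 0) .tf ⟨by simp, by simp, trivial⟩
  have h2 : c (.inl 0) ≠ c (.inl 2) := hc (0, 0) .tn ⟨by simp, by simp, trivial⟩
  have h3 : c (.inl 1) ≠ c (.inl 2) := hc (0, 0) .fn ⟨by simp, by simp, trivial⟩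
  have hcn : ∀ k j, k ≤ N → j ≤ Lc → c (.inr ((k, j), 0)) ≠ c (.inl 2) := fun k j hk hj =>
    hc (k, j) .cn ⟨hk, hj, trivial⟩
  have hnx : ∀ k j, j < Lc → nx Lc 0 0 0 0 (k, j) = (k, j + 1) := by
    intro k j hj
    rw [nx_id _ _ _ (by omega)]
    simp [hj]
  have hnx' : ∀ k, nx Lc 0 0 0 0 (k, Lc) = (k + 1, 0) := by
    intro k
    rw [nx_id _ _ _ (by omega)]
    simp
  have hcc : ∀ k j, k ≤ N → j < Lc → c (.inr ((k, j), 0)) ≠ c (.inr ((k, j + 1), 0)) := by
    intro k j hk hj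
    have h : c (.inr ((k, j), 0)) ≠ c (.inr (nx Lc 0 0 0 0 (k, j), 0)) :=
      hc (k, j) .cc ⟨hk, hj.le, fun h => by simp only at h; omega⟩
    rwa [hnx k j hj] at h
  have hcc' : ∀ k, k < N → c (.inr ((k, Lc), 0)) ≠ c (.inr ((k + 1, 0), 0)) := by
    intro k hk
    have h : c (.inr ((k, Lc), 0)) ≠ c (.inr (nx Lc 0 0 0 0 (k, Lc), 0)) :=
      hc (k, Lc) .cc ⟨hk.le, le_rfl, fun h => by simp only at h; omega⟩
    rwa [hnx' k] at h
  -- the chain
  have hchain : ∀ k, k ≤ N → c (.inr ((k, 0), 0)) = c (.inl 0) →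
      ∀ j, j ≤ Lc → c (.inr ((k, j), 0)) = if j % 2 = 0 then c (.inl 0) else c (.inl 1) := by
    intro k hk h0 j
    induction j with
    | zero => intro _; simpa using h0
    | succ j ih =>
      intro hj
      have e1 := ih (by omega)
      have e2 := hcc k j hk (by omega)
      have e3 := hcn k (j + 1) hk hj
      by_cases hp : j % 2 = 0
      · rw [if_pos hp] at e1
        rw [if_neg (by omega)]
        rw [e1] at e2
        exact third' h1 h2 h3 e3 e2.symm
      · rw [if_neg hp] at e1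
        rw [if_pos (by omega)]
        rw [e1] at e2
        exact third h1 h2 h3 e3 e2.symm
  have hy : ∀ k, k ≤ N → c (.inr ((k, 0), 0)) = c (.inl 0) := by
    intro k
    induction k with
    | zero =>
      intro _
      have e1 : c (.inr ((0, 0), 0)) ≠ c (.inl 1) := hc (0, 0) .cf ⟨by simp, by simp, rfl, rfl⟩
      exact third h1 h2 h3 (hcn 0 0 (by omega) (by omega)) e1
    | succ k ih =>
      intro hk
      have e1 := hchain k (by omega) (ih (by omega)) Lc le_rfl
      rw [if_neg (by omega)] at e1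
      have e2 := hcc' k (by omega)
      rw [e1] at e2
      exact third h1 h2 h3 (hcn (k + 1) 0 hk (by omega)) e2.symm
  have hgad : ∀ k, k ≤ N → c (.inr ((k, 0), 2)) ≠ c (.inl 0) → c (.inr ((k, 0), 1)) = c (.inl 0) := by
    intro k hk hg
    have e1 : c (.inr ((k, 0), 3)) ≠ c (.inr ((k, 0), 0)) := hc (k, 0) .hc ⟨hk, by simp, rfl⟩
    have e2 : c (.inr ((k, 0), 2)) ≠ c (.inr ((k, 0), 3)) := hc (k, 0) .gg ⟨hk, by simp, rfl⟩
    have e3 : c (.inr ((k, 0), 2)) ≠ c (.inr ((k, 0), 1)) := hc (k, 0) .gp ⟨hk, by simp, rfl⟩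
    have e4 : c (.inr ((k, 0), 3)) ≠ c (.inr ((k, 0), 1)) := hc (k, 0) .hp ⟨hk, by simp, rfl⟩
    rw [hy k hk] at e1
    exact gadget hg e1 e2 e3 e4
  have hp : ∀ k, k ≤ N → c (.inr ((k, 0), 1)) = c (.inl 0) := by
    intro k
    induction k with
    | zero =>
      intro hk
      exact hgad 0 hk (hc (0, 0) .gt ⟨by simp, by simp, rfl, rfl⟩)
    | succ k ih =>
      intro hk
      apply hgad (k + 1) hk
      have e1 : c (.inr ((k, 0), 1)) ≠ c (.inr (pnx (k, 0), 2)) :=
        hc (k, 0) .pg ⟨by simp only; omega, by simp, rfl, by simp only; omega⟩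
      rw [ih (by omega)] at e1
      exact e1.symm
  have e1 : c (.inr ((N, 0), 1)) ≠ c (.inl 0) := hc (N, 0) .pt ⟨le_rfl, by simp, rfl, rfl⟩
  exact e1 (hp N le_rfl)

/-- the flipped part -/
def flp (a b : ℕ) (x : ℕ × ℕ) : Prop :=
  (a < x.1 ∧ x.1 < b) ∨ (x.1 = a ∧ 1 ≤ x.2) ∨ (x.1 = b ∧ x.2 = 0)

open Classical in
/-- colouring of the swapped graph -/
noncomputable def col (a b : ℕ) : Fin 3 ⊕ ((ℕ × ℕ) × Fin 4) → Fin 3
  | .inl t => t
  | .inr (x, 0) => if (x.2 % 2 = 0 ∧ ¬ flp a b x) ∨ (x.2 % 2 = 1 ∧ flp a b x) then 0 else 1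
  | .inr (x, 1) => if x.1 ≤ a then 0 else 1
  | .inr (x, 2) => if x.1 ≤ a then 1 else if x.1 ≤ b then 2 else 0
  | .inr (x, 3) => if x.1 ≤ a then 2 else if x.1 ≤ b then 0 else 2

theorem col_cc (Lc a b : ℕ) (hL : Lc % 2 = 1) (hab : a < b) (x : ℕ × ℕ) (hx : x.2 ≤ Lc) :
    col a b (.inr (x, 0)) ≠ col a b (.inr (nx Lc a b b a x, 0)) := by
  classical
  obtain ⟨k, j⟩ := x
  simp only at hx
  have hcol : ∀ x, col a b (.inr (x, 0)) =
    if (x.2 % 2 = 0 ∧ ¬ flp a b x) ∨ (x.2 % 2 = 1 ∧ flp a b x) then 0 else 1 := fun x => rfl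
  have main : ∀ x y : ℕ × ℕ, ((x.2 % 2 = 0 ∧ ¬ flp a b x) ∨ (x.2 % 2 = 1 ∧ flp a b x) ↔
      ¬ ((y.2 % 2 = 0 ∧ ¬ flp a b y) ∨ (y.2 % 2 = 1 ∧ flp a b y))) →
      col a b (.inr (x, 0)) ≠ col a b (.inr (y, 0)) := by
    intro x y h
    rw [hcol, hcol]
    by_cases hx : (x.2 % 2 = 0 ∧ ¬ flp a b x) ∨ (x.2 % 2 = 1 ∧ flp a b x)
    · rw [if_pos hx, if_neg (h.1 hx)]
      decide
    · rw [if_neg hx, if_pos (not_not.1 fun h' => hx (h.2 h'))]
      decide
  unfold nx
  by_cases h1 : (k, j) = (a, 0)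
  · rw [if_pos h1]
    apply main
    simp only [Prod.mk.injEq] at h1
    simp only [flp]
    omega
  · rw [if_neg h1]
    by_cases h2 : (k, j) = (b, 0)
    · rw [if_pos h2]
      apply main
      simp only [Prod.mk.injEq] at h2
      obtain ⟨rfl, rfl⟩ := h2
      have f1 : flp a k (k, 0) := Or.inr (Or.inr ⟨rfl, rfl⟩)
      have f2 : flp a k (a, 1) := Or.inr (Or.inl ⟨rfl, le_rfl⟩)
      simp [f1, f2]
    · rw [if_neg h2]
      simp only [Prod.mk.injEq] at h1 h2
      by_cases h3 : j < Lc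
      · rw [if_pos h3]
        apply main
        have f1 : flp a b (k, j) ↔ flp a b (k, j + 1) := by
          simp only [flp]
          omega
        rw [f1]
        by_cases f2 : flp a b (k, j + 1)
        · simp only [f2, not_true_eq_false, and_false, and_true, false_or]
          constructor
          · intro h
            omega
          · intro h
            omega
        · simp only [f2, not_false_eq_true, and_false, and_true, or_false]
          constructor
          · intro h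
            omega
          · intro h
            omega
      · rw [if_neg h3]
        apply main
        have hj : j = Lc := by omega
        subst hj
        have f1 : flp a b (k, j) ↔ flp a b (k + 1, 0) := by
          unfold flp
          constructor
          · rintro (h | h | h)
            · rcases Nat.lt_or_ge (k + 1) b with h' | h'
              · exact Or.inl ⟨by simp only at h ⊢; omega, h'⟩
              · exact Or.inr (Or.inr ⟨by simp only at h ⊢; omega, rfl⟩)
            · rcases Nat.lt_or_ge (k + 1) b with h' | h'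
              · exact Or.inl ⟨by simp only at h ⊢; omega, h'⟩
              · exact Or.inr (Or.inr ⟨by simp only at h ⊢; omega, rfl⟩)
            · simp only at h
              omega
          · rintro (h | h | h)
            · simp only at h ⊢
              omega
            · simp only at h
              omega
            · simp only at h ⊢
              omega
        rw [f1]
        by_cases f2 : flp a b (k + 1, 0)
        · simp [f2, hL]
        · simp [f2, hL]

theorem sat (N Lc a b : ℕ) (hL : Lc % 2 = 1) (hab : a < b) (hb : b ≤ N) :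
    ∀ x e, acts N Lc x e →
      col a b (instV (lks Lc a b b a) x (SG.src e)) ≠
        col a b (instV (lks Lc a b b a) x (SG.tgt e)) := by
  classical
  rintro ⟨k, j⟩ e ⟨hk, hj, he⟩
  cases e
  · show (0 : Fin 3) ≠ 1
    decide
  · show (0 : Fin 3) ≠ 2
    decide
  · show (1 : Fin 3) ≠ 2
    decide
  · show col a b (.inr ((k, j), 0)) ≠ 2
    simp only [col]
    split_ifs <;> decide
  · exact col_cc Lc a b hL hab (k, j) hj
  · show col a b (.inr ((k, j), 1)) ≠ 2
    simp only [col]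
    split_ifs <;> decide
  · show col a b (.inr ((k, j), 2)) ≠ col a b (.inr ((k, j), 3))
    simp only [col]
    split_ifs <;> decide
  · show col a b (.inr ((k, j), 2)) ≠ col a b (.inr ((k, j), 1))
    simp only [col]
    split_ifs <;> decide
  · show col a b (.inr ((k, j), 3)) ≠ col a b (.inr ((k, j), 1))
    simp only [col]
    split_ifs <;> decide
  · show col a b (.inr ((k, j), 3)) ≠ col a b (.inr ((k, j), 0))
    simp only [col, flp]
    simp only at he
    subst he
    split_ifs <;> simp_all <;> omega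
  · show col a b (.inr ((k, j), 1)) ≠ col a b (.inr (pnx (k, j), 2))
    simp only at he
    obtain ⟨rfl, he⟩ := he
    simp only [col, pnx]
    split_ifs <;> simp_all <;> omega
  · show col a b (.inr ((k, j), 0)) ≠ 1
    simp only at he
    obtain ⟨rfl, rfl⟩ := he
    simp only [col, flp]
    split_ifs <;> simp_all <;> omega
  · show col a b (.inr ((k, j), 2)) ≠ 0
    simp only at he
    obtain ⟨rfl, rfl⟩ := he
    simp [col]
  · show col a b (.inr ((k, j), 1)) ≠ 0
    simp only at he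
    obtain ⟨rfl, rfl⟩ := he
    simp only [col]
    rw [if_neg (by omega)]
    decide

end Pool.Agent.H725.HF
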