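import Mathlib

/-!
Site structures, ultraproducts and the swap lemma.
-/

namespace Pool.Agent.H725.HF

open FirstOrder FirstOrder.Language Filter

/-- interpretations of the relation symbols of L on a type Y -/
abbrev Interp (L : FirstOrder.Language.{0, 0}) (Y : Type) :=
  ∀ n, L.Relations n → (Fin n → Y) → Prop

/-- the subset S of Y, regarded as a structure with the relations induced from I -/
def Ind {L : FirstOrder.Language.{0, 0}} {Y : Type} (_I : Interp L Y) (S : Set Y) : Type := ↥S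

/-- the underlying element -/
def Ind.val {L : FirstOrder.Language.{0, 0}} {Y : Type} {I : Interp L Y} {S : Set Y}
    (x : Ind I S) : Y := Subtype.val x

variable {L : FirstOrder.Language.{0, 0}}

instance indStr [L.IsRelational] {Y : Type} (I : Interp L Y) (S : Set Y) :
    L.Structure (Ind I S) where
  funMap := fun {_} f => isEmptyElim f
  RelMap := fun {n} R x => I n R (fun i => (x i).val)

theorem ev_exists {ι : Type} [Finite ι] (u : Ultrafilter ℕ) (p : ℕ → ι → Prop)
    (h : ∀ᶠ n in (u : Filter ℕ), ∃ i, p n i) : ∃ i, ∀ᶠ n in (u : Filter ℕ), p n i := by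
  by_contra hc
  have h1 : ∀ i, ∀ᶠ n in (u : Filter ℕ), ¬ p n i := by
    intro i
    exact Ultrafilter.eventually_not.2 (not_exists.1 hc i)
  have h2 : ∀ᶠ n in (u : Filter ℕ), ∀ i, ¬ p n i := Filter.eventually_all.2 h1
  obtain ⟨n, hn1, hn2⟩ := (h.and h2).exists
  obtain ⟨i, hi⟩ := hn1
  exact hn2 i hi

/-- The data of a system of patterns. -/
structure PatSys (L : FirstOrder.Language.{0, 0}) (Hub K Λ : Type) where
  J : ∀ n, L.Relations n → Type
  fin : ∀ n R, Finite (J n R)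
  pat : ∀ n R, J n R → Fin n → Hub ⊕ (K × Λ)

variable {Hub K Λ X : Type}

/-- instantiate an entry of a pattern at the site x -/
def inst (lk : K → X → X) (x : X) : Hub ⊕ (K × Λ) → Hub ⊕ (X × Λ)
  | .inl h => .inl h
  | .inr p => .inr (lk p.1 x, p.2)

/-- the interpretation of a pattern system -/
def PatSys.interp (P : PatSys L Hub K Λ) (lk : K → X → X)
    (act : X → ∀ n (R : L.Relations n), P.J n R → Prop) : Interp L (Hub ⊕ (X × Λ)) :=
  fun n R t => ∃ x, ∃ j : P.J n R, act x n R j ∧ t = fun i => inst lk x (P.pat n R j i)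

section mv

/-- the site of an element -/
def site (x0 : X) : Hub ⊕ (X × Λ) → X
  | .inl _ => x0
  | .inr p => p.1

/-- move the sites of a sequence of elements by σ -/
def mv (x0 : X) (σ : (ℕ → X) → (ℕ → X)) (y : ℕ → Hub ⊕ (X × Λ)) : ℕ → Hub ⊕ (X × Λ) :=
  fun n => match y n with
    | .inl h => .inl h
    | .inr p => .inr (σ (fun m => site x0 (y m)) n, p.2)

variable {x0 : X} {σ : (ℕ → X) → (ℕ → X)} {u : Ultrafilter ℕ}

theorem mv_inl {y : ℕ → Hub ⊕ (X × Λ)} (n : ℕ) {h : Hub} (hy : y n = .inl h) :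
    mv x0 σ y n = .inl h := by
  unfold mv
  rw [hy]

theorem mv_inr {y : ℕ → Hub ⊕ (X × Λ)} (n : ℕ) {x : X} {l : Λ} (hy : y n = .inr (x, l)) :
    mv x0 σ y n = .inr (σ (fun m => site x0 (y m)) n, l) := by
  unfold mv
  rw [hy]

theorem mv_congr (h1 : ∀ x x' : ℕ → X, x =ᶠ[u] x' → σ x =ᶠ[u] σ x')
    {y y' : ℕ → Hub ⊕ (X × Λ)} (h : y =ᶠ[u] y') : mv x0 σ y =ᶠ[u] mv x0 σ y' := by
  have h2 : (fun m => site x0 (y m)) =ᶠ[u] (fun m => site x0 (y' m)) := by
    filter_upwards [h] with n hn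
    rw [hn]
  filter_upwards [h, h1 _ _ h2] with n hn hn'
  rcases hy : y n with h | ⟨x, l⟩
  · rw [mv_inl n hy, mv_inl n (hn ▸ hy)]
  · rw [mv_inr n hy, mv_inr n (hn ▸ hy), hn']

/-- every sequence is eventually a sequence of hub elements or of located elements -/
theorem split (y : ℕ → Hub ⊕ (X × Λ)) :
    (∀ᶠ n in (u : Filter ℕ), ∃ h, y n = .inl h) ∨
      (∀ᶠ n in (u : Filter ℕ), ∃ x l, y n = .inr (x, l)) := by
  rw [← Ultrafilter.eventually_or]
  apply Filter.Eventually.of_forall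
  intro n
  rcases y n with h | ⟨x, l⟩
  · exact Or.inl ⟨h, rfl⟩
  · exact Or.inr ⟨x, l, rfl⟩

theorem mv_mv (h1 : ∀ x x' : ℕ → X, x =ᶠ[u] x' → σ x =ᶠ[u] σ x')
    (h2 : ∀ x, σ (σ x) =ᶠ[u] x) (y : ℕ → Hub ⊕ (X × Λ)) :
    mv x0 σ (mv x0 σ y) =ᶠ[u] y := by
  rcases split (u := u) y with h | h
  · filter_upwards [h] with n ⟨h, hn⟩
    rw [hn, mv_inl n (mv_inl n hn)]
  · have h3 : (fun m => site x0 (mv x0 σ y m)) =ᶠ[u] σ (fun m => site x0 (y m)) := by
      filter_upwards [h] with n ⟨x, l, hn⟩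
      rw [mv_inr n hn]
      rfl
    have h4 := (h1 _ _ h3).trans (h2 _)
    filter_upwards [h, h4] with n ⟨x, l, hn⟩ hn4
    rw [mv_inr n (mv_inr n hn), hn4, hn]
    simp only [site]

theorem mv_mem [Finite Λ] (S : ℕ → Set (Hub ⊕ (X × Λ)))
    (h5 : ∀ (x : ℕ → X) (l : Λ), ∀ᶠ n in (u : Filter ℕ),
      ((Sum.inr (x n, l) : Hub ⊕ (X × Λ)) ∈ S n ↔ (Sum.inr (σ x n, l) : Hub ⊕ (X × Λ)) ∈ S n))
    (y : ℕ → Hub ⊕ (X × Λ)) (hy : ∀ᶠ n in (u : Filter ℕ), y n ∈ S n) :
    ∀ᶠ n in (u : Filter ℕ), mv x0 σ y n ∈ S n := by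
  have h6 := Filter.eventually_all.2 (h5 (fun m => site x0 (y m)))
  filter_upwards [hy, h6] with n hn h6
  rcases hyn : y n with h | ⟨x, l⟩
  · rw [mv_inl n hyn, ← hyn]
    exact hn
  · rw [mv_inr n hyn]
    have h7 := h6 l
    rw [hyn] at h7 hn
    exact h7.1 hn

/-- moving an instantiated pattern -/
theorem mv_inst (lk lk' : ℕ → K → X → X)
    (h3 : ∀ (x : ℕ → X) (κ : K), σ (fun n => lk n κ (x n)) =ᶠ[u] fun n => lk' n κ (σ x n))
    (x : ℕ → X) (p : Hub ⊕ (K × Λ)) :
    mv x0 σ (fun n => inst (lk n) (x n) p) =ᶠ[u] fun n => inst (lk' n) (σ x n) p := by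
  rcases p with h | ⟨κ, l⟩
  · apply Filter.Eventually.of_forall
    intro n
    rfl
  · filter_upwards [h3 x κ] with n hn
    show Sum.inr (σ (fun m => lk m κ (x m)) n, l) = Sum.inr (lk' n κ (σ x n), l)
    rw [hn]

end mv

/-- The swap lemma. -/
theorem swap_equiv [L.IsRelational] [Finite K] [Finite Λ] (P : PatSys L Hub K Λ) (x0 : X)
    (lk lk' : ℕ → K → X → X)
    (act : ℕ → X → ∀ n (R : L.Relations n), P.J n R → Prop)
    (S : ℕ → Set (Hub ⊕ (X × Λ))) (hS : ∀ n, (S n).Nonempty) (u : Ultrafilter ℕ)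
    (σ : (ℕ → X) → (ℕ → X))
    (h1 : ∀ x x' : ℕ → X, x =ᶠ[u] x' → σ x =ᶠ[u] σ x')
    (h2 : ∀ x, σ (σ x) =ᶠ[u] x)
    (h3 : ∀ (x : ℕ → X) (κ : K), σ (fun n => lk n κ (x n)) =ᶠ[u] fun n => lk' n κ (σ x n))
    (h3' : ∀ (x : ℕ → X) (κ : K), σ (fun n => lk' n κ (x n)) =ᶠ[u] fun n => lk n κ (σ x n))
    (h4 : ∀ (x : ℕ → X) (m : ℕ) (R : L.Relations m) (j : P.J m R), ∀ᶠ n in (u : Filter ℕ),
      (act n (x n) m R j → act n (σ x n) m R j))
    (h5 : ∀ (x : ℕ → X) (l : Λ), ∀ᶠ n in (u : Filter ℕ),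
      ((Sum.inr (x n, l) : Hub ⊕ (X × Λ)) ∈ S n ↔ (Sum.inr (σ x n, l) : Hub ⊕ (X × Λ)) ∈ S n))
    (φ : L.Sentence) (ha : ∀ n, ¬ Ind (P.interp (lk n) (act n)) (S n) ⊨ φ)
    (hb : ∀ n, Ind (P.interp (lk' n) (act n)) (S n) ⊨ φ) : False := by
  classical
  have hne : ∀ n, Nonempty (Ind (P.interp (lk n) (act n)) (S n)) := fun n => (hS n).to_subtype
  have hne' : ∀ n, Nonempty (Ind (P.interp (lk' n) (act n)) (S n)) := fun n => (hS n).to_subtype
  -- the underlying map on sequences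
  let g : (∀ n, ↥(S n)) → (∀ n, ↥(S n)) := fun f n =>
    if h : mv x0 σ (fun m => (f m : Hub ⊕ (X × Λ))) n ∈ S n then ⟨_, h⟩ else f n
  have hg : ∀ f : (∀ n, ↥(S n)), (fun n => ((g f n : ↥(S n)) : Hub ⊕ (X × Λ))) =ᶠ[u]
      mv x0 σ (fun m => (f m : Hub ⊕ (X × Λ))) := by
    intro f
    have := mv_mem (x0 := x0) (u := u) S h5 (fun m => (f m : Hub ⊕ (X × Λ)))
      (Filter.Eventually.of_forall fun n => (f n).2)
    filter_upwards [this] with n hn
    simp only [g, dif_pos hn]
  have hgc : ∀ f f' : (∀ n, ↥(S n)), (∀ᶠ n in (u : Filter ℕ), f n = f' n) →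
      ∀ᶠ n in (u : Filter ℕ), g f n = g f' n := by
    intro f f' h
    have h6 : (fun m => (f m : Hub ⊕ (X × Λ))) =ᶠ[u] (fun m => (f' m : Hub ⊕ (X × Λ))) := by
      filter_upwards [h] with n hn
      rw [hn]
    filter_upwards [hg f, hg f', mv_congr (x0 := x0) h1 h6] with n a b c
    apply Subtype.ext
    exact a.trans (c.trans b.symm)
  have hgg : ∀ f : (∀ n, ↥(S n)), ∀ᶠ n in (u : Filter ℕ), g (g f) n = f n := by
    intro f
    filter_upwards [hg (g f), mv_congr (x0 := x0) h1 (hg f),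
      mv_mv (x0 := x0) h1 h2 (fun m => (f m : Hub ⊕ (X × Λ)))] with n a b c
    apply Subtype.ext
    exact a.trans (b.trans c)
  -- relations
  have key : ∀ (lk lk' : ℕ → K → X → X),
      (∀ (x : ℕ → X) (κ : K), σ (fun n => lk n κ (x n)) =ᶠ[u] fun n => lk' n κ (σ x n)) →
      ∀ (m : ℕ) (R : L.Relations m) (t : Fin m → (∀ n, ↥(S n))),
      (∀ᶠ n in (u : Filter ℕ), P.interp (lk n) (act n) m R (fun i => (t i n : Hub ⊕ (X × Λ)))) →
      (∀ᶠ n in (u : Filter ℕ),
        P.interp (lk' n) (act n) m R (fun i => (g (t i) n : Hub ⊕ (X × Λ)))) := by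
    intro lk lk' h3 m R t ht
    have ht' : ∀ᶠ n in (u : Filter ℕ), ∃ j : P.J m R, ∃ x, act n x m R j ∧
        (fun i => (t i n : Hub ⊕ (X × Λ))) = fun i => inst (lk n) x (P.pat m R j i) := by
      filter_upwards [ht] with n ⟨x, j, hx⟩
      exact ⟨j, x, hx⟩
    have := P.fin m R
    obtain ⟨j, hj⟩ := ev_exists u _ ht'
    have hx : ∃ x : ℕ → X, ∀ᶠ n in (u : Filter ℕ), act n (x n) m R j ∧
        (fun i => (t i n : Hub ⊕ (X × Λ))) = fun i => inst (lk n) (x n) (P.pat m R j i) := by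
      refine ⟨fun n => if h : ∃ x, act n x m R j ∧
        (fun i => (t i n : Hub ⊕ (X × Λ))) = fun i => inst (lk n) x (P.pat m R j i) then
          h.choose else x0, ?_⟩
      filter_upwards [hj] with n hn
      simp only [dif_pos hn]
      exact hn.choose_spec
    obtain ⟨x, hx⟩ := hx
    have h7 : ∀ i, (fun n => (g (t i) n : Hub ⊕ (X × Λ))) =ᶠ[u]
        fun n => inst (lk' n) (σ x n) (P.pat m R j i) := by
      intro i
      refine (hg (t i)).trans ?_
      refine (mv_congr (x0 := x0) h1 ?_).trans (mv_inst (x0 := x0) lk lk' h3 x (P.pat m R j i))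
      filter_upwards [hx] with n hn
      exact congrFun hn.2 i
    have h8 : ∀ᶠ n in (u : Filter ℕ), ∀ i, (g (t i) n : Hub ⊕ (X × Λ)) =
        inst (lk' n) (σ x n) (P.pat m R j i) := Filter.eventually_all.2 h7
    filter_upwards [h8, hx, h4 x m R j] with n h8 hx h4
    exact ⟨σ x n, j, h4 hx.1, funext h8⟩
  -- the equivalence
  let M : ℕ → Type := fun n => Ind (P.interp (lk n) (act n)) (S n)
  let M' : ℕ → Type := fun n => Ind (P.interp (lk' n) (act n)) (S n)
  let _ : ∀ n, L.Structure (M n) := fun n => indStr _ _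
  let _ : ∀ n, L.Structure (M' n) := fun n => indStr _ _
  let e : ((u : Filter ℕ).Product M) ≃ ((u : Filter ℕ).Product M') :=
    { toFun := Quotient.map (sa := (u : Filter ℕ).productSetoid M)
        (sb := (u : Filter ℕ).productSetoid M') g (fun f f' h => hgc f f' h)
      invFun := Quotient.map (sa := (u : Filter ℕ).productSetoid M')
        (sb := (u : Filter ℕ).productSetoid M) g (fun f f' h => hgc f f' h)
      left_inv := by
        intro q
        induction q using Quotient.inductionOn with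
        | h f => exact Quotient.sound (hgg f)
      right_inv := by
        intro q
        induction q using Quotient.inductionOn with
        | h f => exact Quotient.sound (hgg f) }
  have hrel : ∀ (m : ℕ) (R : L.Relations m) (t : Fin m → ((u : Filter ℕ).Product M)),
      Structure.RelMap R (fun i => e (t i)) ↔ Structure.RelMap R t := by
    intro m R t
    have ht : ∃ s : Fin m → (∀ n, ↥(S n)), ∀ i, t i = Quotient.mk _ (s i) := by
      have := fun i => Quotient.exists_rep (t i)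
      choose s hs using this
      exact ⟨s, fun i => (hs i).symm⟩
    obtain ⟨s, hs⟩ := ht
    have e1 : t = fun i => (Quotient.mk ((u : Filter ℕ).productSetoid M) (s i)) := funext hs
    have e2 : (fun i => e (t i)) = fun i => (Quotient.mk ((u : Filter ℕ).productSetoid M') (g (s i))) := by
      funext i
      rw [hs i]
      rfl
    rw [e2, e1]
    refine Iff.trans (relMap_quotient_mk' (L := L) (s := (u : Filter ℕ).productSetoid M')
        (ps := Ultraproduct.setoidPrestructure M' u) R (fun i => g (s i)))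
        (Iff.trans ?_ (relMap_quotient_mk' (L := L) (s := (u : Filter ℕ).productSetoid M)
        (ps := Ultraproduct.setoidPrestructure M u) R s).symm)
    change (∀ᶠ n in (u : Filter ℕ),
          P.interp (lk' n) (act n) m R (fun i => (g (s i) n : Hub ⊕ (X × Λ)))) ↔
        (∀ᶠ n in (u : Filter ℕ),
          P.interp (lk n) (act n) m R (fun i => (s i n : Hub ⊕ (X × Λ))))
    constructor
    · intro h
      have h9 := key lk' lk h3' m R (fun i => g (s i)) h
      have h10 : ∀ᶠ n in (u : Filter ℕ), ∀ i, g (g (s i)) n = s i n :=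
        Filter.eventually_all.2 fun i => hgg (s i)
      filter_upwards [h9, h10] with n a b
      simp only [b] at a
      exact a
    · intro h
      exact key lk lk' h3 m R s h
  let E : ((u : Filter ℕ).Product M) ≃[L] ((u : Filter ℕ).Product M') :=
    { toEquiv := e
      map_fun' := by
        intro n f
        exact isEmptyElim f
      map_rel' := by
        intro n R x
        exact hrel n R x }
  have w1 : ((u : Filter ℕ).Product M) ⊨ φ ↔ ((u : Filter ℕ).Product M') ⊨ φ :=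
    StrongHomClass.realize_sentence E φ
  rw [Ultraproduct.sentence_realize, Ultraproduct.sentence_realize] at w1
  have w2 : ∀ᶠ n in (u : Filter ℕ), M n ⊨ φ := w1.2 (Filter.Eventually.of_forall hb)
  obtain ⟨n, hn⟩ := w2.exists
  exact ha n hn

end Pool.Agent.H725.HF
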