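import Pool.Agent.H725.HF.Defs
import Pool.Agent.H725.HF.Ultra

/-!
Translation of 3-colouring instances.
-/

namespace Pool.Agent.H725.HF

open FirstOrder FirstOrder.Language

variable {L : FirstOrder.Language.{0, 0}}

/-! ### From HerFO to induced substructures of Ind -/

section her

variable [L.IsRelational] {Y : Type}

/-- a substructure of Ind I D as some Ind I S -/
noncomputable def subEquiv (I : Interp L Y) (D : Set Y) (T : L.Substructure (Ind I D)) :
    T ≃[L] Ind I {y | ∃ t : Ind I D, t ∈ T ∧ t.val = y} where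
  toFun := fun t => ⟨t.1.val, t.1, t.2, rfl⟩
  invFun := fun y => ⟨y.2.choose, y.2.choose_spec.1⟩
  left_inv := by
    intro t
    apply Subtype.ext
    apply Subtype.ext
    have h : ∃ t' : Ind I D, t' ∈ T ∧ t'.val = t.1.val := ⟨t.1, t.2, rfl⟩
    exact h.choose_spec.2
  right_inv := by
    intro y
    apply Subtype.ext
    exact y.2.choose_spec.2
  map_fun' := by
    intro n f
    exact isEmptyElim f
  map_rel' := by
    intro n R x
    rfl

theorem her_unsat {B : Type} [L.Structure B] {φ : L.Sentence}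
    (h : ∀ (A : Type) [L.Structure A] [Finite A] [Nonempty A],
      Nonempty (A →[L] B) ↔ ∀ S : L.Substructure A, Nonempty S → S ⊨ φ)
    (I : Interp L Y) (D : Set Y) (hD : D.Finite) (hne : D.Nonempty)
    (hno : ¬ Nonempty (Ind I D →[L] B)) : ∃ S ⊆ D, S.Nonempty ∧ ¬ Ind I S ⊨ φ := by
  have : Finite (Ind I D) := hD
  have : Nonempty (Ind I D) := hne.to_subtype
  rw [h (Ind I D)] at hno
  push Not at hno
  obtain ⟨T, ⟨t⟩, hT⟩ := hno
  refine ⟨{y | ∃ t : Ind I D, t ∈ T ∧ t.val = y}, ?_, ⟨t.1.val, t.1, t.2, rfl⟩, ?_⟩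
  · rintro y ⟨t, _, rfl⟩
    exact Subtype.property (p := fun y => y ∈ D) t
  · intro hc
    exact hT ((StrongHomClass.realize_sentence (subEquiv I D T) φ).2 hc)

theorem her_sat {B : Type} [L.Structure B] {φ : L.Sentence}
    (h : ∀ (A : Type) [L.Structure A] [Finite A] [Nonempty A],
      Nonempty (A →[L] B) ↔ ∀ S : L.Substructure A, Nonempty S → S ⊨ φ)
    (I : Interp L Y) (D : Set Y) (hD : D.Finite)
    (hyes : Nonempty (Ind I D →[L] B)) (S : Set Y) (hSD : S ⊆ D) (hS : S.Nonempty) :
    Ind I S ⊨ φ := by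
  have : Finite (Ind I D) := hD
  have : Nonempty (Ind I D) := (hS.mono hSD).to_subtype
  let T : L.Substructure (Ind I D) :=
    { carrier := {t | t.val ∈ S}
      fun_mem := by
        intro n f
        exact isEmptyElim f }
  have hT : {y | ∃ t : Ind I D, t ∈ T ∧ t.val = y} = S := by
    ext y
    constructor
    · rintro ⟨t, ht, rfl⟩
      exact ht
    · intro hy
      exact ⟨⟨y, hSD hy⟩, hy, rfl⟩
  have hTne : Nonempty T := by
    obtain ⟨y, hy⟩ := hS
    exact ⟨⟨⟨y, hSD hy⟩, hy⟩⟩
  have h1 := (h (Ind I D)).1 hyes T hTne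
  have h2 := (StrongHomClass.realize_sentence (subEquiv I D T) φ).1 h1
  rw [hT] at h2
  exact h2

end her

/-! ### The gadget structures -/

/-- ordered pairs of distinct colours -/
abbrev P3 := {p : Fin 3 × Fin 3 // p.1 ≠ p.2}

/-- global elements: constants, and the coordinates of the three palette vertices -/
abbrev HubT (C : Type) := C ⊕ (Fin 3 × (Fin 3 → C))

/-- local elements: coordinates of vertices and private elements of edges -/
abbrev LamT (C VL EL : Type) := (VL × (Fin 3 → C)) ⊕ (EL × (P3 → C))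

/-- names of vertices, seen from a site: palette vertex, or local vertex at a linked site -/
abbrev VRef (K VL : Type) := Fin 3 ⊕ (K × VL)

variable {C K VL EL X : Type}

/-- element of a vertex given by a function of the colour of this vertex -/
def vel (EL : Type) (v : VRef K VL) (s : Fin 3 → C) : HubT C ⊕ (K × LamT C VL EL) :=
  match v with
  | .inl t => .inl (.inr (t, s))
  | .inr kv => .inr (kv.1, .inl (kv.2, s))

open Classical in
/-- the same, with constants -/
noncomputable def vel' (EL : Type) (v : VRef K VL) (s : Fin 3 → C) :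
    HubT C ⊕ (K × LamT C VL EL) :=
  if h : ∃ c, ∀ a, s a = c then .inl (.inl h.choose) else vel EL v s

open Classical in
/-- element given by a function F of the two colours of the edge e -/
noncomputable def kap (here : K) (e : EL) (src tgt : VRef K VL) (F : P3 → C) :
    HubT C ⊕ (K × LamT C VL EL) :=
  if h : ∃ c, ∀ p, F p = c then .inl (.inl h.choose)
  else if h : ∃ s : Fin 3 → C, ∀ p, F p = s p.1.1 then vel EL src h.choose
  else if h : ∃ s : Fin 3 → C, ∀ p, F p = s p.1.2 then vel EL tgt h.choose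
  else .inr (here, .inr (e, F))

theorem other (a : Fin 3) : a ≠ a + 1 := by
  revert a
  decide

theorem other' (a : Fin 3) : a + 1 ≠ a := by
  revert a
  decide

theorem kap_src (here : K) (e : EL) (src tgt : VRef K VL) (s : Fin 3 → C) :
    kap here e src tgt (fun p => s p.1.1) = vel' EL src s := by
  classical
  unfold kap vel'
  by_cases h : ∃ c, ∀ a, s a = c
  · have h' : ∃ c, ∀ p : P3, s p.1.1 = c := by
      obtain ⟨c, hc⟩ := h
      exact ⟨c, fun p => hc _⟩
    rw [dif_pos h', dif_pos h]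
    have e1 := h'.choose_spec ⟨(0, 1), by decide⟩
    have e2 := h.choose_spec 0
    rw [← e1, ← e2]
  · have h' : ¬ ∃ c, ∀ p : P3, s p.1.1 = c := by
      rintro ⟨c, hc⟩
      exact h ⟨c, fun a => hc ⟨(a, a + 1), other a⟩⟩
    rw [dif_neg h', dif_neg h]
    have h2 : ∃ s' : Fin 3 → C, ∀ p : P3, s p.1.1 = s' p.1.1 := ⟨s, fun _ => rfl⟩
    rw [dif_pos h2]
    congr 1
    funext a
    exact (h2.choose_spec ⟨(a, a + 1), other a⟩).symm

theorem fst_snd (s s' : Fin 3 → C) (h : ∀ p : P3, s p.1.2 = s' p.1.1) : ∃ c, ∀ a, s a = c := by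
  refine ⟨s 0, fun a => ?_⟩
  have e1 := h ⟨(1, 0), by decide⟩
  have e2 := h ⟨(2, 0), by decide⟩
  have e3 := h ⟨(2, 1), by decide⟩
  have e4 := h ⟨(1, 2), by decide⟩
  simp only at e1 e2 e3 e4
  fin_cases a
  · rfl
  · exact e3.trans e2.symm
  · exact e4.trans e1.symm

theorem kap_tgt (here : K) (e : EL) (src tgt : VRef K VL) (s : Fin 3 → C) :
    kap here e src tgt (fun p => s p.1.2) = vel' EL tgt s := by
  classical
  unfold kap vel'
  by_cases h : ∃ c, ∀ a, s a = c
  · have h' : ∃ c, ∀ p : P3, s p.1.2 = c := by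
      obtain ⟨c, hc⟩ := h
      exact ⟨c, fun p => hc _⟩
    rw [dif_pos h', dif_pos h]
    have e1 := h'.choose_spec ⟨(0, 1), by decide⟩
    have e2 := h.choose_spec 1
    rw [← e1, ← e2]
  · have h' : ¬ ∃ c, ∀ p : P3, s p.1.2 = c := by
      rintro ⟨c, hc⟩
      exact h ⟨c, fun a => hc ⟨(a + 1, a), other' a⟩⟩
    rw [dif_neg h', dif_neg h]
    have h2 : ¬ ∃ s' : Fin 3 → C, ∀ p : P3, s p.1.2 = s' p.1.1 := by
      rintro ⟨s', hs'⟩
      exact h (fst_snd s s' hs')
    rw [dif_neg h2]
    have h3 : ∃ s' : Fin 3 → C, ∀ p : P3, s p.1.2 = s' p.1.2 := ⟨s, fun _ => rfl⟩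
    rw [dif_pos h3]
    congr 1
    funext a
    exact (h3.choose_spec ⟨(a + 1, a), other' a⟩).symm

/-- vertices -/
def instV (lk : K → X → X) (x : X) : VRef K VL → Fin 3 ⊕ (X × VL)
  | .inl t => .inl t
  | .inr kv => .inr (lk kv.1 x, kv.2)

open Classical in
/-- the element (with constants) of a vertex -/
noncomputable def vY (EL : Type) (v : Fin 3 ⊕ (X × VL)) (s : Fin 3 → C) :
    HubT C ⊕ (X × LamT C VL EL) :=
  if h : ∃ c, ∀ a, s a = c then .inl (.inl h.choose) else
  match v with
  | .inl t => .inl (.inr (t, s))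
  | .inr kv => .inr (kv.1, .inl (kv.2, s))

theorem inst_vel' (lk : K → X → X) (x : X) (v : VRef K VL) (s : Fin 3 → C) :
    inst lk x (vel' EL v s) = vY EL (instV lk x v) s := by
  classical
  unfold vel' vY
  by_cases h : ∃ c, ∀ a, s a = c
  · rw [dif_pos h, dif_pos h]
    rfl
  · rw [dif_neg h, dif_neg h]
    rcases v with t | kv
    · rfl
    · rfl

/-- The data of a site graph: each edge name has two end vertices (seen from its site). -/
structure SiteGraph (K VL EL : Type) where
  src : EL → VRef K VL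
  tgt : EL → VRef K VL

/-- The data of a pp-construction of K_3 in B. -/
structure KData (L : FirstOrder.Language.{0, 0}) (B : Type) [L.Structure B] where
  d : ℕ
  hd : 1 ≤ d
  m : ℕ
  Φ : List (Atom L ((Fin d ⊕ Fin d) ⊕ Fin m))
  C : Type
  fin : Finite C
  ι : C → B
  F : (Fin d ⊕ Fin d) ⊕ Fin m → P3 → C
  s : Fin d → Fin 3 → C
  g : (Fin d → B) → Fin 3
  F_src : ∀ i, F (Sum.inl (Sum.inl i)) = fun p => s i p.1.1
  F_tgt : ∀ i, F (Sum.inl (Sum.inr i)) = fun p => s i p.1.2
  F_eq : ∀ q q', Atom.eq q q' ∈ Φ → F q = F q'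
  F_rel : ∀ (n : ℕ) (R : L.Relations n) (z : Fin n → (Fin d ⊕ Fin d) ⊕ Fin m),
    Atom.rel R z ∈ Φ → ∀ p, Structure.RelMap R (fun i => ι (F (z i) p))
  hg : ∀ (x y : Fin d → B) (w : Fin m → B),
    (∀ a ∈ Φ, a.Holds (Sum.elim (Sum.elim x y) w)) → g x ≠ g y

theorem kdata_of {B : Type} [L.Structure B] (h : PPConstructsK3 L B) : Nonempty (KData L B) := by
  classical
  obtain ⟨d, E, hd, ⟨m, Φ, hΦ⟩, ⟨f, hf⟩, ⟨g, hg⟩⟩ := h
  have h1 : ∀ p : P3, ∃ w : Fin m → B, ∀ a ∈ Φ,
      a.Holds (Sum.elim (Sum.elim (f p.1.1) (f p.1.2)) w) := fun p => (hΦ _).1 (hf _ _ p.2)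
  choose w hw using h1
  let val : P3 → ((Fin d ⊕ Fin d) ⊕ Fin m) → B := fun p =>
    Sum.elim (Sum.elim (f p.1.1) (f p.1.2)) (w p)
  let C := ↥(Set.range (fun x : P3 × ((Fin d ⊕ Fin d) ⊕ Fin m) => val x.1 x.2))
  let F : ((Fin d ⊕ Fin d) ⊕ Fin m) → P3 → C := fun q p => ⟨val p q, ⟨(p, q), rfl⟩⟩
  refine ⟨{
    d := d
    hd := hd
    m := m
    Φ := Φ
    C := C
    fin := Set.finite_range _
    ι := Subtype.val
    F := F
    s := fun i a => F (Sum.inl (Sum.inl i)) ⟨(a, a + 1), other a⟩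
    g := g
    F_src := ?_
    F_tgt := ?_
    F_eq := ?_
    F_rel := ?_
    hg := ?_ }⟩
  · intro i
    funext p
    apply Subtype.ext
    rfl
  · intro i
    funext p
    apply Subtype.ext
    rfl
  · intro q q' hq
    funext p
    apply Subtype.ext
    exact hw p _ hq
  · intro n R z hz p
    exact hw p _ hz
  · intro x y w hxy
    apply hg
    rw [hΦ]
    exact ⟨w, hxy⟩

section system

variable {B : Type} [L.Structure B] (D : KData L B) (G : SiteGraph K VL EL) (here : K)

/-- the pattern system of a site graph -/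
noncomputable def sys [Finite EL] : PatSys L (HubT D.C) K (LamT D.C VL EL) where
  J := fun n R => EL × {z : Fin n → (Fin D.d ⊕ Fin D.d) ⊕ Fin D.m // Atom.rel R z ∈ D.Φ}
  fin := fun _ _ => inferInstance
  pat := fun _ _ j i => kap here j.1 (G.src j.1) (G.tgt j.1) (D.F (j.2.1 i))

/-- the structure of a site graph -/
noncomputable def IG [Finite EL] (lk : K → X → X) (act : X → EL → Prop) :
    Interp L (HubT D.C ⊕ (X × LamT D.C VL EL)) :=
  (sys D G here).interp lk (fun x _ _ j => act x j.1)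

variable [L.IsRelational] [Finite EL]

/-- a homomorphism gives a colouring -/
theorem colour_of_hom (b0 : B) (lk : K → X → X) (act : X → EL → Prop)
    (Dom : Set (HubT D.C ⊕ (X × LamT D.C VL EL)))
    (hDom : ∀ x e, act x e → ∀ F : P3 → D.C, inst lk x (kap here e (G.src e) (G.tgt e) F) ∈ Dom)
    (h : Nonempty (Ind (IG D G here lk act) Dom →[L] B)) :
    ∃ c : Fin 3 ⊕ (X × VL) → Fin 3, ∀ x e, act x e →
      c (instV lk x (G.src e)) ≠ c (instV lk x (G.tgt e)) := by
  classical
  obtain ⟨h⟩ := h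
  let hh : HubT D.C ⊕ (X × LamT D.C VL EL) → B := fun y =>
    if hy : y ∈ Dom then h ⟨y, hy⟩ else b0
  refine ⟨fun v => D.g (fun i => hh (vY EL v (D.s i))), ?_⟩
  intro x e hxe
  apply D.hg _ _ (fun j => hh (inst lk x (kap here e (G.src e) (G.tgt e) (D.F (Sum.inr j)))))
  have hv : (Sum.elim (Sum.elim (fun i => hh (vY EL (instV lk x (G.src e)) (D.s i)))
      (fun i => hh (vY EL (instV lk x (G.tgt e)) (D.s i))))
      (fun j => hh (inst lk x (kap here e (G.src e) (G.tgt e) (D.F (Sum.inr j)))))) =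
      fun q => hh (inst lk x (kap here e (G.src e) (G.tgt e) (D.F q))) := by
    funext q
    rcases q with (i | i) | j
    · simp only [Sum.elim_inl]
      rw [D.F_src, kap_src, inst_vel']
    · simp only [Sum.elim_inl, Sum.elim_inr]
      rw [D.F_tgt, kap_tgt, inst_vel']
    · rfl
  rw [hv]
  intro a ha
  rcases a with ⟨q, q'⟩ | ⟨R, z⟩
  · show hh _ = hh _
    rw [D.F_eq q q' ha]
  · show Structure.RelMap R (fun i => hh (inst lk x (kap here e (G.src e) (G.tgt e) (D.F (z i)))))
    have h1 : ∀ i, hh (inst lk x (kap here e (G.src e) (G.tgt e) (D.F (z i)))) =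
        h ⟨_, hDom x e hxe (D.F (z i))⟩ := fun i => dif_pos (hDom x e hxe (D.F (z i)))
    simp only [h1]
    apply h.map_rel
    exact ⟨x, (e, ⟨z, ha⟩), hxe, rfl⟩

/-- a colouring gives a homomorphism -/
theorem hom_of_colour (lk : K → X → X) (hlk : ∀ x, lk here x = x) (act : X → EL → Prop)
    (Dom : Set (HubT D.C ⊕ (X × LamT D.C VL EL)))
    (c : Fin 3 ⊕ (X × VL) → Fin 3) (hc : ∀ x e, act x e →
      c (instV lk x (G.src e)) ≠ c (instV lk x (G.tgt e))) :
    Nonempty (Ind (IG D G here lk act) Dom →[L] B) := by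
  classical
  let hh : HubT D.C ⊕ (X × LamT D.C VL EL) → D.C := fun y =>
    match y with
    | .inl (.inl b) => b
    | .inl (.inr ts) => ts.2 (c (.inl ts.1))
    | .inr (x, .inl vs) => vs.2 (c (.inr (x, vs.1)))
    | .inr (x, .inr eF) =>
      if h : c (instV lk x (G.src eF.1)) ≠ c (instV lk x (G.tgt eF.1)) then
        eF.2 ⟨(c (instV lk x (G.src eF.1)), c (instV lk x (G.tgt eF.1))), h⟩
      else eF.2 ⟨(0, 1), by decide⟩
  have hvel : ∀ x (v : VRef K VL) (s : Fin 3 → D.C),
      hh (inst lk x (vel EL v s)) = s (c (instV lk x v)) := by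
    intro x v s
    rcases v with t | kv
    · rfl
    · rfl
  have key : ∀ x e (F : P3 → D.C)
      (h : c (instV lk x (G.src e)) ≠ c (instV lk x (G.tgt e))),
      hh (inst lk x (kap here e (G.src e) (G.tgt e) F)) =
        F ⟨(c (instV lk x (G.src e)), c (instV lk x (G.tgt e))), h⟩ := by
    intro x e F h
    unfold kap
    split_ifs with h1 h2 h3
    · exact (h1.choose_spec _).symm
    · rw [hvel]
      exact (h2.choose_spec ⟨(c (instV lk x (G.src e)), c (instV lk x (G.tgt e))), h⟩).symm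
    · rw [hvel]
      exact (h3.choose_spec ⟨(c (instV lk x (G.src e)), c (instV lk x (G.tgt e))), h⟩).symm
    · show hh (Sum.inr (lk here x, Sum.inr (e, F))) = _
      rw [hlk]
      show dite _ _ _ = _
      rw [dif_pos h]
  exact ⟨{
    toFun := fun y => D.ι (hh y.val)
    map_fun' := by
      intro n f
      exact isEmptyElim f
    map_rel' := by
      intro n R t ht
      obtain ⟨x, ⟨e, z, hz⟩, hxe, ht⟩ := ht
      have h := hc x e hxe
      have h1 : (fun y => D.ι (hh y.val)) ∘ t = fun i =>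
          D.ι (D.F (z i) ⟨(c (instV lk x (G.src e)), c (instV lk x (G.tgt e))), h⟩) := by
        funext i
        show D.ι (hh (t i).val) = _
        rw [← key x e (D.F (z i)) h]
        have := congrFun ht i
        rw [this]
        rfl
      show Structure.RelMap R ((fun y => D.ι (hh y.val)) ∘ t)
      rw [h1]
      exact D.F_rel n R z hz _ }⟩

end system

end Pool.Agent.H725.HF
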