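import Pool.Agent.H725.HF.Graph

/-!
The external swap and the main theorem.
-/

namespace Pool.Agent.H725.HF

open Filter FirstOrder FirstOrder.Language

section sigma

variable (u : Ultrafilter ℕ) (a b : ℕ → ℕ)

open Classical in
/-- the external swap of the two half chains -/
noncomputable def sg (x : ℕ → ℕ × ℕ) : ℕ → ℕ × ℕ :=
  if h : ∃ i : ℕ, x =ᶠ[u] fun n => (a n, i + 1) then fun n => (b n, h.choose + 1)
  else if h : ∃ i : ℕ, x =ᶠ[u] fun n => (b n, i + 1) then fun n => (a n, h.choose + 1)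
  else x

variable {u a b}

theorem uniq {c : ℕ → ℕ} {i i' : ℕ} {x : ℕ → ℕ × ℕ} (h : x =ᶠ[u] fun n => (c n, i + 1))
    (h' : x =ᶠ[u] fun n => (c n, i' + 1)) : i = i' := by
  obtain ⟨n, h1, h2⟩ := (h.and h').exists
  rw [h1] at h2
  simpa using h2

theorem disj (hab : ∀ n, a n < b n) {i i' : ℕ} {x : ℕ → ℕ × ℕ}
    (h : x =ᶠ[u] fun n => (a n, i)) (h' : x =ᶠ[u] fun n => (b n, i')) : False := by
  obtain ⟨n, h1, h2⟩ := (h.and h').exists
  rw [h1] at h2
  have := hab n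
  simp only [Prod.mk.injEq] at h2
  omega

theorem sg_a {x : ℕ → ℕ × ℕ} {i : ℕ} (h : x =ᶠ[u] fun n => (a n, i + 1)) :
    sg u a b x = fun n => (b n, i + 1) := by
  unfold sg
  have h' : ∃ i : ℕ, x =ᶠ[u] fun n => (a n, i + 1) := ⟨i, h⟩
  rw [dif_pos h', uniq h'.choose_spec h]

theorem sg_b (hab : ∀ n, a n < b n) {x : ℕ → ℕ × ℕ} {i : ℕ} (h : x =ᶠ[u] fun n => (b n, i + 1)) :
    sg u a b x = fun n => (a n, i + 1) := by
  unfold sg
  have h0 : ¬ ∃ i : ℕ, x =ᶠ[u] fun n => (a n, i + 1) := by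
    rintro ⟨i', h'⟩
    exact disj hab h' h
  have h' : ∃ i : ℕ, x =ᶠ[u] fun n => (b n, i + 1) := ⟨i, h⟩
  rw [dif_neg h0, dif_pos h', uniq h'.choose_spec h]

theorem sg_o {x : ℕ → ℕ × ℕ} (h : ∀ i : ℕ, ¬ x =ᶠ[u] fun n => (a n, i + 1))
    (h' : ∀ i : ℕ, ¬ x =ᶠ[u] fun n => (b n, i + 1)) : sg u a b x = x := by
  unfold sg
  rw [dif_neg (not_exists.2 h), dif_neg (not_exists.2 h')]

theorem cases3 (u : Ultrafilter ℕ) (a b : ℕ → ℕ) (x : ℕ → ℕ × ℕ) :
    (∃ i : ℕ, x =ᶠ[u] fun n => (a n, i + 1)) ∨ (∃ i : ℕ, x =ᶠ[u] fun n => (b n, i + 1)) ∨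
    ((∀ i : ℕ, ¬ x =ᶠ[u] fun n => (a n, i + 1)) ∧ (∀ i : ℕ, ¬ x =ᶠ[u] fun n => (b n, i + 1))) := by
  by_cases h : ∃ i : ℕ, x =ᶠ[u] fun n => (a n, i + 1)
  · exact Or.inl h
  · by_cases h' : ∃ i : ℕ, x =ᶠ[u] fun n => (b n, i + 1)
    · exact Or.inr (Or.inl h')
    · exact Or.inr (Or.inr ⟨not_exists.1 h, not_exists.1 h'⟩)

theorem sg_congr (hab : ∀ n, a n < b n) (x x' : ℕ → ℕ × ℕ) (h : x =ᶠ[u] x') :
    sg u a b x =ᶠ[u] sg u a b x' := by
  rcases cases3 u a b x with ⟨i, hi⟩ | ⟨i, hi⟩ | ⟨h1, h2⟩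
  · rw [sg_a hi, sg_a (h.symm.trans hi)]
  · rw [sg_b hab hi, sg_b hab (h.symm.trans hi)]
  · rw [sg_o h1 h2, sg_o (fun i hi => h1 i (h.trans hi)) (fun i hi => h2 i (h.trans hi))]
    exact h

theorem sg_sg (hab : ∀ n, a n < b n) (x : ℕ → ℕ × ℕ) : sg u a b (sg u a b x) =ᶠ[u] x := by
  rcases cases3 u a b x with ⟨i, hi⟩ | ⟨i, hi⟩ | ⟨h1, h2⟩
  · rw [sg_a hi, sg_b (i := i) hab (Filter.EventuallyEq.refl _ _)]
    exact hi.symm
  · rw [sg_b hab hi, sg_a (i := i) (Filter.EventuallyEq.refl _ _)]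
    exact hi.symm
  · rw [sg_o h1 h2, sg_o h1 h2]

/-- the length of the chains tends to infinity -/
def Lcn (n : ℕ) : ℕ := 2 * n + 1

theorem large (hu : (u : Filter ℕ) ≤ atTop) (i : ℕ) : ∀ᶠ n in (u : Filter ℕ), i < n :=
  hu (Filter.eventually_gt_atTop i)

theorem nx_step {Lc a b a' b' k i : ℕ} (h : i + 1 < Lc) :
    nx Lc a b a' b' (k, i + 1) = (k, i + 1 + 1) := by
  unfold nx
  rw [if_neg (by simp), if_neg (by simp), if_pos h]

theorem nx_a {Lc a b a' b' : ℕ} : nx Lc a b a' b' (a, 0) = (a', 1) := by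
  unfold nx
  rw [if_pos rfl]

theorem nx_b {Lc a b a' b' : ℕ} (hab : a < b) : nx Lc a b a' b' (b, 0) = (b', 1) := by
  unfold nx
  rw [if_neg (by simp only [Prod.mk.injEq]; omega), if_pos rfl]

theorem nx_pre {Lc a b a' b' i c : ℕ} {x : ℕ × ℕ} (h : nx Lc a b a' b' x = (c, i + 1))
    (ha : x ≠ (a, 0)) (hb : x ≠ (b, 0)) : x = (c, i) := by
  unfold nx at h
  rw [if_neg ha, if_neg hb] at h
  obtain ⟨k, j⟩ := x
  split_ifs at h
  · simp only [Prod.mk.injEq] at h ⊢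
    omega
  · simp only [Prod.mk.injEq] at h
    omega

theorem nx_eq {Lc a b a' b' a'' b'' : ℕ} {x : ℕ × ℕ}
    (ha : x ≠ (a, 0)) (hb : x ≠ (b, 0)) : nx Lc a b a' b' x = nx Lc a b a'' b'' x := by
  unfold nx
  rw [if_neg ha, if_neg hb, if_neg ha, if_neg hb]

/-- the swap commutes with the next-site maps -/
theorem sg_nx (hu : (u : Filter ℕ) ≤ atTop) (hab : ∀ n, a n < b n) (a' b' : ℕ → ℕ)
    (h : (a' = a ∧ b' = b) ∨ (a' = b ∧ b' = a)) (x : ℕ → ℕ × ℕ) :
    sg u a b (fun n => nx (Lcn n) (a n) (b n) (a' n) (b' n) (x n)) =ᶠ[u]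
      fun n => nx (Lcn n) (a n) (b n) (b' n) (a' n) (sg u a b x n) := by
  rcases cases3 u a b x with ⟨i, hi⟩ | ⟨i, hi⟩ | ⟨h1, h2⟩
  · have e : (fun n => nx (Lcn n) (a n) (b n) (a' n) (b' n) (x n)) =ᶠ[u]
        fun n => (a n, (i + 1) + 1) := by
      filter_upwards [hi, large hu i] with n hn hn'
      rw [hn, nx_step (by unfold Lcn; omega)]
    rw [sg_a e, sg_a hi]
    filter_upwards [large hu i] with n hn
    rw [nx_step (by unfold Lcn; omega)]
  · have e : (fun n => nx (Lcn n) (a n) (b n) (a' n) (b' n) (x n)) =ᶠ[u]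
        fun n => (b n, (i + 1) + 1) := by
      filter_upwards [hi, large hu i] with n hn hn'
      rw [hn, nx_step (by unfold Lcn; omega)]
    rw [sg_b hab e, sg_b hab hi]
    filter_upwards [large hu i] with n hn
    rw [nx_step (by unfold Lcn; omega)]
  · rw [sg_o h1 h2]
    by_cases ha : x =ᶠ[u] fun n => (a n, 0)
    · have e : (fun n => nx (Lcn n) (a n) (b n) (a' n) (b' n) (x n)) =ᶠ[u]
          fun n => (a' n, 0 + 1) := by
        filter_upwards [ha] with n hn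
        rw [hn, nx_a]
      have e' : (fun n => nx (Lcn n) (a n) (b n) (b' n) (a' n) (x n)) =ᶠ[u]
          fun n => (b' n, 0 + 1) := by
        filter_upwards [ha] with n hn
        rw [hn, nx_a]
      refine Filter.EventuallyEq.trans ?_ e'.symm
      rcases h with ⟨rfl, rfl⟩ | ⟨rfl, rfl⟩
      · rw [sg_a e]
      · rw [sg_b hab e]
    · by_cases hb : x =ᶠ[u] fun n => (b n, 0)
      · have e : (fun n => nx (Lcn n) (a n) (b n) (a' n) (b' n) (x n)) =ᶠ[u]
            fun n => (b' n, 0 + 1) := by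
          filter_upwards [hb] with n hn
          rw [hn, nx_b (hab n)]
        have e' : (fun n => nx (Lcn n) (a n) (b n) (b' n) (a' n) (x n)) =ᶠ[u]
            fun n => (a' n, 0 + 1) := by
          filter_upwards [hb] with n hn
          rw [hn, nx_b (hab n)]
        refine Filter.EventuallyEq.trans ?_ e'.symm
        rcases h with ⟨rfl, rfl⟩ | ⟨rfl, rfl⟩
        · rw [sg_b hab e]
        · rw [sg_a e]
      · have ha' : ∀ᶠ n in (u : Filter ℕ), x n ≠ (a n, 0) := Ultrafilter.eventually_not.2 ha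
        have hb' : ∀ᶠ n in (u : Filter ℕ), x n ≠ (b n, 0) := Ultrafilter.eventually_not.2 hb
        have pre : ∀ (c : ℕ → ℕ) (i : ℕ),
            (fun n => nx (Lcn n) (a n) (b n) (a' n) (b' n) (x n)) =ᶠ[u] (fun n => (c n, i + 1)) →
            x =ᶠ[u] fun n => (c n, i) := by
          intro c i hc
          filter_upwards [hc, ha', hb'] with n h3 h4 h5
          exact nx_pre h3 h4 h5
        rw [sg_o]
        · filter_upwards [ha', hb'] with n h4 h5
          exact nx_eq h4 h5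
        · intro i hi
          have := pre a i hi
          cases i with
          | zero => exact ha this
          | succ i => exact h1 i this
        · intro i hi
          have := pre b i hi
          cases i with
          | zero => exact hb this
          | succ i => exact h2 i this

/-- the swap commutes with the next-p maps -/
theorem sg_pnx (hab : ∀ n, a n < b n) (x : ℕ → ℕ × ℕ) :
    sg u a b (fun n => pnx (x n)) =ᶠ[u] fun n => pnx (sg u a b x n) := by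
  have hp : ∀ k i : ℕ, pnx (k, i + 1) = (k, i + 1) := by
    intro k i
    unfold pnx
    rw [if_neg (by simp)]
  rcases cases3 u a b x with ⟨i, hi⟩ | ⟨i, hi⟩ | ⟨h1, h2⟩
  · have e : (fun n => pnx (x n)) =ᶠ[u] fun n => (a n, i + 1) := by
      filter_upwards [hi] with n hn
      rw [hn, hp]
    rw [sg_a e, sg_a hi]
    apply Filter.Eventually.of_forall
    intro n
    simp only
    rw [hp]
  · have e : (fun n => pnx (x n)) =ᶠ[u] fun n => (b n, i + 1) := by
      filter_upwards [hi] with n hn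
      rw [hn, hp]
    rw [sg_b hab e, sg_b hab hi]
    apply Filter.Eventually.of_forall
    intro n
    simp only
    rw [hp]
  · have pre : ∀ (c : ℕ → ℕ) (i : ℕ),
        (fun n => pnx (x n)) =ᶠ[u] (fun n => (c n, i + 1)) → x =ᶠ[u] fun n => (c n, i + 1) := by
      intro c i hc
      filter_upwards [hc] with n hn
      unfold pnx at hn
      split_ifs at hn with h3
      · simp only [Prod.mk.injEq] at hn
        omega
      · exact hn
    rw [sg_o h1 h2, sg_o (fun i hi => h1 i (pre a i hi)) (fun i hi => h2 i (pre b i hi))]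

/-- the active edges -/
theorem sg_act (hu : (u : Filter ℕ) ≤ atTop) (hab : ∀ n, a n < b n) (N : ℕ → ℕ)
    (hb : ∀ n, b n ≤ N n) (x : ℕ → ℕ × ℕ) (e : Ed) :
    ∀ᶠ n in (u : Filter ℕ), acts (N n) (Lcn n) (x n) e → acts (N n) (Lcn n) (sg u a b x n) e := by
  have gen : ∀ (n i k k' : ℕ), i < n → k' ≤ N n → acts (N n) (Lcn n) (k, i + 1) e →
      acts (N n) (Lcn n) (k', i + 1) e := by
    intro n i k k' hn hk h
    obtain ⟨_, h2, h3⟩ := h
    refine ⟨hk, h2, ?_⟩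
    cases e <;> simp_all [Lcn]
    omega
  rcases cases3 u a b x with ⟨i, hi⟩ | ⟨i, hi⟩ | ⟨h1, h2⟩
  · rw [sg_a hi]
    filter_upwards [hi, large hu i] with n hn hn' h
    rw [hn] at h
    exact gen n i _ _ hn' (hb n) h
  · rw [sg_b hab hi]
    filter_upwards [hi, large hu i] with n hn hn' h
    rw [hn] at h
    exact gen n i _ _ hn' ((hab n).le.trans (hb n)) h
  · rw [sg_o h1 h2]
    exact Filter.Eventually.of_forall fun n h => h

end sigma

/-- the domains -/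
def Dm (Hub Λ : Type) (N Lc : ℕ) : Set (Hub ⊕ ((ℕ × ℕ) × Λ)) :=
  {y | ∀ x l, y = .inr (x, l) → x.1 ≤ N ∧ x.2 ≤ Lc}

theorem Dm_finite (Hub Λ : Type) [Finite Hub] [Finite Λ] (N Lc : ℕ) : (Dm Hub Λ N Lc).Finite := by
  have h1 : (Set.range (Sum.inl : Hub → Hub ⊕ ((ℕ × ℕ) × Λ))).Finite := Set.finite_range _
  have h2 : ((Sum.inr : (ℕ × ℕ) × Λ → Hub ⊕ ((ℕ × ℕ) × Λ)) ''
      ((Set.Iic N ×ˢ Set.Iic Lc) ×ˢ Set.univ)).Finite := by
    apply Set.Finite.image
    apply Set.Finite.prod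
    · exact (Set.finite_Iic N).prod (Set.finite_Iic Lc)
    · exact Set.finite_univ
  refine (h1.union h2).subset ?_
  intro y hy
  rcases y with h | ⟨x, l⟩
  · exact Or.inl ⟨h, rfl⟩
  · right
    have := hy x l rfl
    exact ⟨(x, l), ⟨⟨this.1, this.2⟩, trivial⟩, rfl⟩

/-- all instantiated elements of active edges are in the domain -/
theorem dom_ok {C : Type} (N Lc a b a' b' : ℕ) (hL : 1 ≤ Lc) (ha : a' ≤ N) (hb : b' ≤ N)
    (x : ℕ × ℕ) (e : Ed) (h : acts N Lc x e) (F : P3 → C) :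
    inst (lks Lc a b a' b') x (kap (VL := Fin 4) (0 : Fin 3) e (SG.src e) (SG.tgt e) F) ∈
      Dm (HubT C) (LamT C (Fin 4) Ed) N Lc := by
  classical
  have hv : ∀ (v : VRef (Fin 3) (Fin 4)) (s : Fin 3 → C),
      (∀ y l, instV (lks Lc a b a' b') x v = .inr (y, l) → y.1 ≤ N ∧ y.2 ≤ Lc) →
      inst (lks Lc a b a' b') x (vel Ed v s) ∈ Dm (HubT C) (LamT C (Fin 4) Ed) N Lc := by
    intro v s hv y l hy
    rcases v with t | ⟨k, vl⟩
    · exact absurd hy (by simp [vel, inst])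
    · have e1 : lks Lc a b a' b' k x = y := by
        have : (Sum.inr (lks Lc a b a' b' k x, Sum.inl (vl, s)) :
          HubT C ⊕ ((ℕ × ℕ) × LamT C (Fin 4) Ed)) = Sum.inr (y, l) := hy
        simp only [Sum.inr.injEq, Prod.mk.injEq] at this
        exact this.1
      apply hv y vl
      show Sum.inr (lks Lc a b a' b' k x, vl) = _
      rw [e1]
  have h0 : ∀ (vl : Fin 4) y l,
      instV (lks Lc a b a' b') x (.inr (0, vl)) = .inr (y, l) → y.1 ≤ N ∧ y.2 ≤ Lc := by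
    intro vl y l hy
    have : (Sum.inr (x, vl) : Fin 3 ⊕ ((ℕ × ℕ) × Fin 4)) = Sum.inr (y, l) := hy
    simp only [Sum.inr.injEq, Prod.mk.injEq] at this
    rw [← this.1]
    exact ⟨h.1, h.2.1⟩
  have hi : ∀ (t : Fin 3) (y : ℕ × ℕ) (l : Fin 4),
      instV (lks Lc a b a' b') x (.inl t : VRef (Fin 3) (Fin 4)) = .inr (y, l) →
      y.1 ≤ N ∧ y.2 ≤ Lc := by
    intro t y l hy
    exact absurd hy (by simp [instV])
  have hsrc : ∀ y l, instV (lks Lc a b a' b') x (SG.src e) = .inr (y, l) →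
      y.1 ≤ N ∧ y.2 ≤ Lc := by
    cases e
    · exact hi 0
    · exact hi 0
    · exact hi 1
    · exact h0 0
    · exact h0 0
    · exact h0 1
    · exact h0 2
    · exact h0 2
    · exact h0 3
    · exact h0 3
    · exact h0 1
    · exact h0 0
    · exact h0 2
    · exact h0 1
  have htgt : ∀ y l, instV (lks Lc a b a' b') x (SG.tgt e) = .inr (y, l) →
      y.1 ≤ N ∧ y.2 ≤ Lc := by
    cases e
    · exact hi 1
    · exact hi 2
    · exact hi 2
    · exact hi 2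
    · intro y l hy
      have h5 : (Sum.inr (nx Lc a b a' b' x, 0) : Fin 3 ⊕ ((ℕ × ℕ) × Fin 4)) = Sum.inr (y, l) := hy
      simp only [Sum.inr.injEq, Prod.mk.injEq] at h5
      rw [← h5.1]
      obtain ⟨k, j⟩ := x
      obtain ⟨h6, h7, h8⟩ := h
      simp only at h6 h7 h8
      unfold nx
      split_ifs with h9 h10 h11
      · exact ⟨ha, hL⟩
      · exact ⟨hb, hL⟩
      · exact ⟨h6, h11⟩
      · simp only at h11 ⊢
        have h12 : j = Lc := by omega
        have h13 : k ≠ N := fun hk => h8 ⟨hk, h12⟩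
        omega
    · exact hi 2
    · exact h0 3
    · exact h0 1
    · exact h0 1
    · exact h0 0
    · intro y l hy
      have h5 : (Sum.inr (pnx x, 2) : Fin 3 ⊕ ((ℕ × ℕ) × Fin 4)) = Sum.inr (y, l) := hy
      simp only [Sum.inr.injEq, Prod.mk.injEq] at h5
      rw [← h5.1]
      obtain ⟨k, j⟩ := x
      obtain ⟨h6, h7, h8⟩ := h
      simp only at h6 h7 h8
      unfold pnx
      rw [if_pos h8.1]
      simp only
      omega
    · exact hi 1
    · exact hi 0
    · exact hi 0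
  unfold kap
  split_ifs with h1 h2 h3
  · intro y l hy
    exact absurd hy (by simp [inst])
  · exact hv _ _ hsrc
  · exact hv _ _ htgt
  · intro y l hy
    have h5 : (Sum.inr (x, Sum.inr (e, F)) : HubT C ⊕ ((ℕ × ℕ) × LamT C (Fin 4) Ed)) =
      Sum.inr (y, l) := hy
    simp only [Sum.inr.injEq, Prod.mk.injEq] at h5
    rw [← h5.1]
    exact ⟨h.1, h.2.1⟩

theorem main {L : FirstOrder.Language.{0, 0}} [L.IsRelational] (B : Type) [L.Structure B]
    (hher : HerFO L B) : ¬ PPConstructsK3 L B := by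
  classical
  intro hpp
  obtain ⟨D⟩ := kdata_of hpp
  obtain ⟨φ, hφ⟩ := hher
  have b0 : D.C := D.s ⟨0, D.hd⟩ 0
  have := D.fin
  let Hub := HubT D.C
  let Λ := LamT D.C (Fin 4) Ed
  let Nn : ℕ → ℕ := fun n => Nat.card (Fin n → Set Λ)
  let I : ℕ → (Fin 3 → ℕ × ℕ → ℕ × ℕ) → Interp L (Hub ⊕ ((ℕ × ℕ) × Λ)) := fun n lk =>
    IG D SG (0 : Fin 3) lk (acts (Nn n) (Lcn n))
  have hL1 : ∀ n, 1 ≤ Lcn n := fun n => by unfold Lcn; omega
  have hL2 : ∀ n, Lcn n % 2 = 1 := fun n => by unfold Lcn; omega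
  have hDne : ∀ n, (Dm Hub Λ (Nn n) (Lcn n)).Nonempty := fun n =>
    ⟨.inl (.inl b0), fun x l h => by simp at h⟩
  have hDf : ∀ n, (Dm Hub Λ (Nn n) (Lcn n)).Finite := fun n => Dm_finite Hub Λ _ _
  -- the unswapped instances are not satisfiable
  have hno : ∀ n, ¬ Nonempty (Ind (I n (lks (Lcn n) 0 0 0 0)) (Dm Hub Λ (Nn n) (Lcn n)) →[L] B) := by
    intro n h
    obtain ⟨c, hc⟩ := colour_of_hom D SG (0 : Fin 3) (D.ι b0) (lks (Lcn n) 0 0 0 0)
      (acts (Nn n) (Lcn n)) (Dm Hub Λ (Nn n) (Lcn n))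
      (fun x e hxe F => dom_ok (Nn n) (Lcn n) 0 0 0 0 (hL1 n) (Nat.zero_le _) (Nat.zero_le _) x e hxe F)
      h
    exact unsat (Nn n) (Lcn n) (hL2 n) c hc
  have hS : ∀ n, ∃ S ⊆ Dm Hub Λ (Nn n) (Lcn n), S.Nonempty ∧
      ¬ Ind (I n (lks (Lcn n) 0 0 0 0)) S ⊨ φ := fun n =>
    her_unsat hφ _ _ (hDf n) (hDne n) (hno n)
  choose S hSD hSne hSφ using hS
  -- pigeonhole
  have hpig : ∀ n, ∃ a b : ℕ, a < b ∧ b ≤ Nn n ∧ ∀ i < n, ∀ l : Λ,
      ((Sum.inr ((a, i + 1), l) : Hub ⊕ ((ℕ × ℕ) × Λ)) ∈ S n ↔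
        (Sum.inr ((b, i + 1), l) : Hub ⊕ ((ℕ × ℕ) × Λ)) ∈ S n) := by
    intro n
    let f : Fin (Nn n + 1) → (Fin n → Set Λ) := fun k i => {l | Sum.inr (((k : ℕ), (i : ℕ) + 1), l) ∈ S n}
    have hf : ¬ Function.Injective f := by
      intro hf
      have h1 := Nat.card_le_card_of_injective f hf
      rw [Nat.card_eq_fintype_card, Fintype.card_fin] at h1
      have : Nat.card (Fin n → Set Λ) = Nn n := rfl
      omega
    rw [Function.Injective] at hf
    push Not at hf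
    obtain ⟨k, k', hkk, hne⟩ := hf
    have hlab : ∀ i < n, ∀ l : Λ,
      ((Sum.inr (((k : ℕ), i + 1), l) : Hub ⊕ ((ℕ × ℕ) × Λ)) ∈ S n ↔
        (Sum.inr (((k' : ℕ), i + 1), l) : Hub ⊕ ((ℕ × ℕ) × Λ)) ∈ S n) := by
      intro i hi l
      have h1 := congrFun hkk ⟨i, hi⟩
      exact Set.ext_iff.1 h1 l
    rcases Nat.lt_or_gt_of_ne (fun h => hne (Fin.ext h)) with h | h
    · exact ⟨k, k', h, by omega, hlab⟩
    · exact ⟨k', k, h, by omega, fun i hi l => (hlab i hi l).symm⟩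
  choose a b hab hbN hlab using hpig
  -- the swapped instances are satisfiable
  have hyes : ∀ n, Ind (I n (lks (Lcn n) (a n) (b n) (b n) (a n))) (S n) ⊨ φ := by
    intro n
    apply her_sat hφ _ _ (hDf n) _ (S n) (hSD n) (hSne n)
    exact hom_of_colour D SG (0 : Fin 3) (lks (Lcn n) (a n) (b n) (b n) (a n)) (fun x => rfl)
      (acts (Nn n) (Lcn n)) (Dm Hub Λ (Nn n) (Lcn n)) (col (a n) (b n))
      (sat (Nn n) (Lcn n) (a n) (b n) (hL2 n) (hab n) (hbN n))
  have hSφ' : ∀ n, ¬ Ind (I n (lks (Lcn n) (a n) (b n) (a n) (b n))) (S n) ⊨ φ := by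
    intro n
    rw [lks_id (Lcn n) (a n) (b n) 0 0 (hL1 n)]
    exact hSφ n
  -- the ultraproduct
  let u : Ultrafilter ℕ := Filter.hyperfilter ℕ
  have hu : (u : Filter ℕ) ≤ atTop := by
    rw [← Nat.cofinite_eq_atTop]
    exact Filter.hyperfilter_le_cofinite
  refine swap_equiv (sys D SG (0 : Fin 3)) ((0, 0) : ℕ × ℕ)
    (fun n => lks (Lcn n) (a n) (b n) (a n) (b n)) (fun n => lks (Lcn n) (a n) (b n) (b n) (a n))
    (fun n x _ _ j => acts (Nn n) (Lcn n) x j.1) S hSne u (sg u a b)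
    (sg_congr hab) (sg_sg hab) ?_ ?_ ?_ ?_ φ hSφ' hyes
  · intro x κ
    fin_cases κ
    · exact Filter.EventuallyEq.refl _ _
    · exact sg_nx hu hab a b (Or.inl ⟨rfl, rfl⟩) x
    · exact sg_pnx hab x
  · intro x κ
    fin_cases κ
    · exact Filter.EventuallyEq.refl _ _
    · exact sg_nx hu hab b a (Or.inr ⟨rfl, rfl⟩) x
    · exact sg_pnx hab x
  · intro x m R j
    exact sg_act hu hab Nn hbN x j.1
  · intro x l
    rcases cases3 u a b x with ⟨i, hi⟩ | ⟨i, hi⟩ | ⟨h1, h2⟩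
    · rw [sg_a hi]
      filter_upwards [hi, large hu i] with n hn hn'
      rw [hn]
      exact hlab n i hn' l
    · rw [sg_b hab hi]
      filter_upwards [hi, large hu i] with n hn hn'
      rw [hn]
      exact (hlab n i hn' l).symm
    · rw [sg_o h1 h2]
      exact Filter.Eventually.of_forall fun n => Iff.rfl

end Pool.Agent.H725.HF
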